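import Pool.Agent.U587.DV.Main

/-!
# Distributive varieties of Lie algebras whose identities have no basis of bounded degree

Over every field of characteristic zero and for every `d` there is a variety of Lie algebras whose
subvarieties form a chain (so that the lattice of subvarieties is distributive) and which has no
basis of identities of degree at most `d`. The case `d = 6` answers the question of the problem.
-/

set_option autoImplicit false

universe u

namespace Pool.Agent.Results.MP_b4a71d_al.DegreeOfIdentities

open Pool.Agent.U587.DV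

/-- The join of two classes is a variety and contains both of them, so that it is the smallest
variety which contains both. -/
theorem join_variety (F : Type u) [Field F] (B C : Set (LieAlg F)) :
    IsVariety F (join F B C) ∧ B ⊆ join F B C ∧ C ⊆ join F B C := by
  refine ⟨⟨{f | ∀ A ∈ B ∪ C, IsIdentity F f A}, ?_⟩, fun A hA V _ h _ => h hA,
    fun A hA V _ _ h => h hA⟩
  apply Set.Subset.antisymm
  · intro A hA
    exact hA _ ⟨_, rfl⟩ (fun A hA f hf => hf A (Or.inl hA)) (fun A hA f hf => hf A (Or.inr hA))
  · rintro A hA V ⟨S, rfl⟩ h1 h2 f hf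
    exact hA f fun A' hA' => hA'.elim (fun h => h1 h f hf) (fun h => h2 h f hf)

theorem result (F : Type u) [Field F] [CharZero F] :
    (∀ B C : Set (LieAlg F),
      IsVariety F (join F B C) ∧ B ⊆ join F B C ∧ C ⊆ join F B C) ∧
    ∀ d : ℕ, ∃ V : Set (LieAlg F), IsVariety F V ∧
      (∀ B C : Set (LieAlg F), IsVariety F B → IsVariety F C → B ⊆ V → C ⊆ V →
        B ⊆ C ∨ C ⊆ B) ∧
      IsDistributive F V ∧ ¬ HasBasisOfDegree F d V :=
  ⟨join_variety F, fun d => ⟨Vd F d, Vd_variety d, fun _ _ hB hC h1 h2 => chain hB hC h1 h2,
    distributive d, no_basis d⟩⟩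

end Pool.Agent.Results.MP_b4a71d_al.DegreeOfIdentities
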